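import Pool.Agent.V11258.SG.Main

namespace Pool.Agent.Results.MP_70f607_gt.ClopenNotOpen

open Cardinal Filter Set Topology
open Pool.Agent.V11258.SG (Z)

/-- `Γ`: the open `γ`-covers of `X`. -/
def Gamma (X : Type) [TopologicalSpace X] : Set (Set (Set X)) :=
  {𝒰 | (∀ U ∈ 𝒰, IsOpen U) ∧ Set.univ ∉ 𝒰 ∧ 𝒰.Infinite ∧ ∀ x : X, {U | U ∈ 𝒰 ∧ x ∉ U}.Finite}

/-- `Ω`: the open `ω`-covers of `X`. -/
def Omega (X : Type) [TopologicalSpace X] : Set (Set (Set X)) :=
  {𝒰 | (∀ U ∈ 𝒰, IsOpen U) ∧ Set.univ ∉ 𝒰 ∧ ∀ F : Finset X, ∃ U ∈ 𝒰, (F : Set X) ⊆ U}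

/-- `C_Γ`: the clopen `γ`-covers of `X`. -/
def CGamma (X : Type) [TopologicalSpace X] : Set (Set (Set X)) :=
  {𝒰 | 𝒰 ∈ Gamma X ∧ ∀ U ∈ 𝒰, IsClopen U}

/-- `C_Ω`: the clopen `ω`-covers of `X`. -/
def COmega (X : Type) [TopologicalSpace X] : Set (Set (Set X)) :=
  {𝒰 | 𝒰 ∈ Omega X ∧ ∀ U ∈ 𝒰, IsClopen U}

/-- The selection principle `S₁(𝒜, ℬ)`. -/
def S1 {T : Type} (𝒜 ℬ : Set (Set T)) : Prop :=
  ∀ A : ℕ → Set T, (∀ n, A n ∈ 𝒜) → ∃ a : ℕ → T, (∀ n, a n ∈ A n) ∧ Set.range a ∈ ℬ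

/-- `C_p(X)`: continuous real functions with the topology of pointwise convergence (the subspace
topology inherited from the product). -/
abbrev Cp (X : Type) [TopologicalSpace X] : Type := {f : X → ℝ // Continuous f}

/-- The zero function. -/
def zero (X : Type) [TopologicalSpace X] : Cp X := ⟨fun _ => 0, continuous_const⟩

/-- `Γ_0`: countably infinite sets of functions, without `0`, converging to `0`. -/
def Gamma0 (X : Type) [TopologicalSpace X] : Set (Set (Cp X)) :=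
  {A | A.Countable ∧ A.Infinite ∧ zero X ∉ A ∧ ∀ W ∈ 𝓝 (zero X), {f | f ∈ A ∧ f ∉ W}.Finite}

/-- `Ω_0`: sets of functions with `0` in the closure but not in the set. -/
def Omega0 (X : Type) [TopologicalSpace X] : Set (Set (Cp X)) :=
  {A | zero X ∈ closure A ∧ zero X ∉ A}

/-- The Cantor space embeds in the irrationals. -/
theorem exists_emb : ∃ φ : Z → ℝ, Continuous φ ∧ Function.Injective φ ∧ ∀ z, Irrational (φ z) := by
  have hm : MeasurableSet {x : ℝ | Irrational x} := by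
    have : {x : ℝ | Irrational x} = (range ((↑) : ℚ → ℝ))ᶜ := rfl
    rw [this]
    exact (countable_range _).measurableSet.compl
  have hpos : 0 < MeasureTheory.volume {x : ℝ | Irrational x} := by
    rw [pos_iff_ne_zero]
    intro h
    have h1 : MeasureTheory.volume (range ((↑) : ℚ → ℝ)) = 0 := (countable_range _).measure_zero _
    have h2 : MeasureTheory.volume (Set.univ : Set ℝ) ≤ 0 := by
      have : (Set.univ : Set ℝ) ⊆ {x : ℝ | Irrational x} ∪ range ((↑) : ℚ → ℝ) := by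
        intro x _
        by_cases hx : x ∈ range ((↑) : ℚ → ℝ)
        · exact Or.inr hx
        · exact Or.inl hx
      refine (MeasureTheory.measure_mono this).trans ((MeasureTheory.measure_union_le _ _).trans ?_)
      rw [h, h1, add_zero]
    simp at h2
  obtain ⟨K, hK, hKc, hKpos⟩ := hm.exists_lt_isCompact hpos
  have hKu : ¬ K.Countable := fun h => by
    rw [h.measure_zero] at hKpos
    exact lt_irrefl _ hKpos
  obtain ⟨f, hf1, hf2, hf3⟩ := hKc.isClosed.exists_nat_bool_injection_of_not_countable hKu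
  let e : ℕ ≃ ℕ × ℕ × ℕ := (Denumerable.eqv (ℕ × ℕ × ℕ)).symm
  refine ⟨fun z => f (fun i => z (e i)), ?_, ?_, fun z => hK (hf1 ⟨_, rfl⟩)⟩
  · exact hf2.comp (continuous_pi fun i => continuous_apply _)
  · intro z w h
    have h1 := hf3 h
    funext i
    have h2 := congrFun h1 (e.symm i)
    simpa using h2

/-- Clopen separation. -/
theorem clopen_sep {Y : Type} [TopologicalSpace Y] [SecondCountableTopology Y]
    (hY : ∀ y : Y, ∀ O, IsOpen O → y ∈ O → ∃ W, IsClopen W ∧ y ∈ W ∧ W ⊆ O)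
    {O₁ O₂ : Set Y} (h₁ : IsOpen O₁) (h₂ : IsOpen O₂) (h : O₁ ∪ O₂ = Set.univ) :
    ∃ U, IsClopen U ∧ U ⊆ O₁ ∧ Uᶜ ⊆ O₂ := by
  classical
  have hex : ∀ y : Y, ∃ W, IsClopen W ∧ y ∈ W ∧ (W ⊆ O₁ ∨ W ⊆ O₂) := by
    intro y
    have : y ∈ O₁ ∪ O₂ := h ▸ mem_univ y
    rcases this with hy | hy
    · obtain ⟨W, a, b, c⟩ := hY y O₁ h₁ hy
      exact ⟨W, a, b, Or.inl c⟩
    · obtain ⟨W, a, b, c⟩ := hY y O₂ h₂ hy
      exact ⟨W, a, b, Or.inr c⟩
  choose W hW1 hW2 hW3 using hex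
  obtain ⟨T, hT, hTU⟩ := TopologicalSpace.isOpen_iUnion_countable W (fun y => (hW1 y).isOpen)
  have hcov : ∀ y, ∃ t ∈ T, y ∈ W t := by
    intro y
    have : y ∈ ⋃ i ∈ T, W i := by
      rw [hTU]
      exact mem_iUnion.mpr ⟨y, hW2 y⟩
    simpa using this
  rcases T.eq_empty_or_nonempty with hTe | hTn
  · refine ⟨∅, isClopen_empty, empty_subset _, ?_⟩
    intro y
    obtain ⟨t, ht, _⟩ := hcov y
    rw [hTe] at ht
    exact absurd ht (notMem_empty _)
  obtain ⟨b, hb⟩ := hT.exists_eq_range hTn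
  have hcov' : ∀ y, ∃ i, y ∈ W (b i) := by
    intro y
    obtain ⟨t, ht, hy⟩ := hcov y
    rw [hb] at ht
    obtain ⟨i, rfl⟩ := ht
    exact ⟨i, hy⟩
  let A : ℕ → Set Y := fun i => W (b i) ∩ ⋂ j ∈ Finset.range i, (W (b j))ᶜ
  have hA : ∀ i, IsOpen (A i) := fun i => (hW1 _).isOpen.inter
    (isOpen_biInter_finset fun j _ => (hW1 _).compl.isOpen)
  have hAcov : ∀ y, ∃ i, y ∈ A i := by
    intro y
    refine ⟨Nat.find (hcov' y), Nat.find_spec (hcov' y), ?_⟩
    simp only [Finset.mem_range, mem_iInter, mem_compl_iff]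
    intro j hj
    exact Nat.find_min (hcov' y) hj
  have hAdis : ∀ y i j, y ∈ A i → y ∈ A j → i = j := by
    intro y i j hi hj
    rcases lt_trichotomy i j with hlt | heq | hlt
    · have := hj.2
      simp only [Finset.mem_range, mem_iInter, mem_compl_iff] at this
      exact absurd hi.1 (this i hlt)
    · exact heq
    · have := hi.2
      simp only [Finset.mem_range, mem_iInter, mem_compl_iff] at this
      exact absurd hj.1 (this j hlt)
  let U : Set Y := ⋃ i, ⋃ _ : W (b i) ⊆ O₁, A i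
  let U' : Set Y := ⋃ i, ⋃ _ : ¬ W (b i) ⊆ O₁, A i
  have hU : IsOpen U := isOpen_iUnion fun i => isOpen_iUnion fun _ => hA i
  have hU' : IsOpen U' := isOpen_iUnion fun i => isOpen_iUnion fun _ => hA i
  have hc : Uᶜ = U' := by
    ext y
    simp only [U, U', mem_compl_iff, mem_iUnion, not_exists]
    constructor
    · intro hy
      obtain ⟨i, hi⟩ := hAcov y
      exact ⟨i, fun h => hy i h hi, hi⟩
    · rintro ⟨i, hi, hyi⟩ j hj hyj
      rw [hAdis y i j hyi hyj] at hi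
      exact hi hj
  refine ⟨U, ⟨?_, hU⟩, ?_, ?_⟩
  · rw [← isOpen_compl_iff, hc]
    exact hU'
  · intro y hy
    simp only [U, mem_iUnion] at hy
    obtain ⟨i, hi, hyi⟩ := hy
    exact hi hyi.1
  · rw [hc]
    intro y hy
    simp only [U', mem_iUnion] at hy
    obtain ⟨i, hi, hyi⟩ := hy
    exact ((hW3 (b i)).resolve_left hi) hyi.1

/-- Under CH there is a set `X` of irrationals such that `C_p(X)` satisfies `S₁(Γ_0, Ω_0)` and
`X` satisfies `S₁(C_Γ, C_Ω)`, but `X` does not satisfy `S₁(Γ, Ω)`. -/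
theorem result (CH : (𝔠 : Cardinal.{0}) = ℵ₁) :
    ∃ X : Set ℝ, (∀ x ∈ X, Irrational x) ∧ S1 (Gamma0 X) (Omega0 X) ∧
      S1 (CGamma X) (COmega X) ∧ ¬ S1 (Gamma X) (Omega X) := by
  classical
  obtain ⟨X0, hQ, hrow, hfun, hsel⟩ := Pool.Agent.V11258.SG.main CH
  obtain ⟨φ, hφc, hφi, hφr⟩ := exists_emb
  have hφe : IsEmbedding φ := (hφc.isClosedEmbedding hφi).isEmbedding
  let X : Set ℝ := φ '' X0
  choose g hg1 hg2 using fun x : X => x.2
  have hgs : ∀ z ∈ X0, ∃ x : X, g x = z := by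
    intro z hz
    refine ⟨⟨φ z, z, hz, rfl⟩, hφi ?_⟩
    rw [hg2]
  have hφg : φ ∘ g = Subtype.val := funext hg2
  have hgc : Continuous g := by
    rw [hφe.isInducing.continuous_iff, hφg]
    exact continuous_subtype_val
  have hgi : IsInducing g := by
    refine IsInducing.of_comp hgc hφc ?_
    rw [hφg]
    exact IsInducing.subtypeVal
  -- sequential form
  have seq : ∀ U : ℕ → ℕ → Set X, (∀ n m, IsClopen (U n m)) →
      (∀ x n, ∀ᶠ m in atTop, x ∈ U n m) →
      ∃ e : ℕ → ℕ, ∀ F : Finset X, ∃ᶠ n in atTop, (F : Set X) ⊆ U n (e n) := by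
    intro U hU hγ
    have h1 : ∀ n m, ∃ V, IsOpen V ∧ g ⁻¹' V = U n m := fun n m => hgi.isOpen_iff.mp (hU n m).isOpen
    have h2 : ∀ n m, ∃ V, IsOpen V ∧ g ⁻¹' V = (U n m)ᶜ := fun n m =>
      hgi.isOpen_iff.mp (hU n m).compl.isOpen
    choose V hV1 hV2 using h1
    choose V' hV1' hV2' using h2
    have hV : ∀ n m x, g x ∈ V n m ↔ x ∈ U n m := fun n m x => by rw [← hV2]; rfl
    have hV' : ∀ n m x, g x ∈ V' n m ↔ x ∉ U n m := fun n m x => by
      have : x ∈ (U n m)ᶜ ↔ x ∈ g ⁻¹' V' n m := by rw [hV2']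
      exact this.symm
    obtain ⟨e, he⟩ := hsel V V' hV1 hV1'
      (by
        intro n m z hz
        obtain ⟨x, rfl⟩ := hgs z hz
        by_cases hx : x ∈ U n m
        · exact Or.inl ((hV n m x).mpr hx)
        · exact Or.inr ((hV' n m x).mpr hx))
      (by
        intro n m z hz h3 h4
        obtain ⟨x, rfl⟩ := hgs z hz
        exact (hV' n m x).mp h4 ((hV n m x).mp h3))
      (by
        intro z hz n
        obtain ⟨x, rfl⟩ := hgs z hz
        exact (hγ x n).mono fun m hm => (hV n m x).mpr hm)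
    refine ⟨e, fun F => ?_⟩
    have h3 := he (F.image g) (by
      intro z hz
      obtain ⟨x, _, rfl⟩ := Finset.mem_image.mp (Finset.mem_coe.mp hz)
      exact hg1 x)
    refine h3.mono fun n hn x hx => ?_
    exact (hV n (e n) x).mp (hn (Finset.mem_coe.mpr (Finset.mem_image_of_mem g (Finset.mem_coe.mp hx))))
  refine ⟨X, ?_, ?_, ?_, ?_⟩
  · rintro _ ⟨z, _, rfl⟩
    exact hφr z
  · -- `C_p(X)`
    intro A hA
    have hsep : ∀ y : X, ∀ O, IsOpen O → y ∈ O → ∃ W, IsClopen W ∧ y ∈ W ∧ W ⊆ O := by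
      intro y O hO hy
      obtain ⟨V, hV1, rfl⟩ := hgi.isOpen_iff.mp hO
      obtain ⟨W, hW1, hW2, hW3⟩ := compact_exists_isClopen_in_isOpen hV1 hy
      exact ⟨g ⁻¹' W, hW1.preimage hgc, hW2, preimage_mono hW3⟩
    let f : ∀ n, ℕ ↪ A n := fun n => (hA n).2.1.natEmbedding
    have hlim : ∀ n (x : X) (ε : ℝ), 0 < ε → ∀ᶠ m in atTop, |(f n m).1.1 x| < ε := by
      intro n x ε hε
      have hW : {u : Cp X | |u.1 x| < ε} ∈ 𝓝 (zero X) := by
        have h1 : IsOpen {u : Cp X | |u.1 x| < ε} := by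
          have : Continuous fun u : Cp X => |u.1 x| :=
            ((continuous_apply x).comp continuous_subtype_val).abs
          exact isOpen_lt this continuous_const
        refine h1.mem_nhds ?_
        show |(0:ℝ)| < ε
        rw [abs_zero]; exact hε
      have h2 := (hA n).2.2.2 _ hW
      have h3 : {m | ¬ |(f n m).1.1 x| < ε}.Finite := by
        refine Set.Finite.of_finite_image (f := fun m => (f n m).1) (h2.subset ?_) ?_
        · rintro _ ⟨m, hm, rfl⟩
          exact ⟨(f n m).2, hm⟩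
        · intro a _ b _ h
          exact (f n).injective (Subtype.ext h)
      rw [← Nat.cofinite_eq_atTop]
      exact h3
    have hU : ∀ n m, ∃ U : Set X, IsClopen U ∧ U ⊆ {x | |(f n m).1.1 x| < 1 / ((n:ℝ)+1)} ∧
        Uᶜ ⊆ {x | 1 / (2 * ((n:ℝ)+1)) < |(f n m).1.1 x|} := by
      intro n m
      have hc : Continuous fun x => |(f n m).1.1 x| := (f n m).1.2.abs
      refine clopen_sep hsep (isOpen_lt hc continuous_const) (isOpen_lt continuous_const hc) ?_
      ext x
      simp only [mem_union, mem_ofPred_eq, mem_univ, iff_true]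
      have hn : (0:ℝ) < (n:ℝ) + 1 := by positivity
      have : 1 / (2 * ((n:ℝ)+1)) < 1 / ((n:ℝ)+1) := by
        apply one_div_lt_one_div_of_lt hn
        linarith
      rcases lt_or_ge (|(f n m).1.1 x|) (1 / ((n:ℝ)+1)) with h | h
      · exact Or.inl h
      · exact Or.inr (this.trans_le h)
    choose U hU1 hU2 hU3 using hU
    obtain ⟨e, he⟩ := seq U hU1 (by
      intro x n
      refine (hlim n x (1 / (2 * ((n:ℝ)+1))) (by positivity)).mono fun m hm => ?_
      by_contra hx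
      exact absurd hm (not_lt.mpr (le_of_lt (hU3 n m hx))))
    refine ⟨fun n => (f n (e n)).1, fun n => (f n (e n)).2, ?_, ?_⟩
    · rw [mem_closure_iff_nhds]
      intro t ht
      obtain ⟨u, hu, hut⟩ := (mem_nhds_subtype _ _ _).mp ht
      rw [nhds_pi, Filter.mem_pi] at hu
      obtain ⟨I, hI, s, hs, hsu⟩ := hu
      have hball : ∀ i : X, ∃ ε > 0, Metric.ball (0:ℝ) ε ⊆ s i := fun i => Metric.mem_nhds_iff.mp (hs i)
      choose ε hε hεs using hball
      have hev : ∀ᶠ n : ℕ in atTop, ∀ i ∈ hI.toFinset, 1 / ((n:ℝ)+1) < ε i := by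
        rw [Finset.eventually_all]
        intro i _
        exact tendsto_one_div_add_atTop_nhds_zero_nat.eventually (gt_mem_nhds (hε i))
      obtain ⟨n, hn1, hn2⟩ := ((he hI.toFinset).and_eventually hev).exists
      refine ⟨(f n (e n)).1, hut ?_, ⟨n, rfl⟩⟩
      refine hsu fun i hi => hεs i ?_
      have h1 : i ∈ U n (e n) := hn1 (by simpa using hi)
      have h2 : |(f n (e n)).1.1 i| < 1 / ((n:ℝ)+1) := hU2 _ _ h1
      rw [mem_ball_zero_iff, Real.norm_eq_abs]
      exact h2.trans (hn2 i (by simpa using hi))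
    · rintro ⟨n, hn⟩
      have h1 : (f n (e n)).1 ∈ A n := (f n (e n)).2
      have h2 : (f n (e n)).1 = zero X := hn
      rw [h2] at h1
      exact (hA n).2.2.1 h1
  · -- clopen covers
    intro 𝒰 h𝒰
    let f : ∀ n, ℕ ↪ 𝒰 n := fun n => (h𝒰 n).1.2.2.1.natEmbedding
    obtain ⟨e, he⟩ := seq (fun n m => (f n m).1) (fun n m => (h𝒰 n).2 _ (f n m).2) (by
      intro x n
      have h2 := (h𝒰 n).1.2.2.2 x
      have h3 : {m | ¬ x ∈ (f n m).1}.Finite := by
        refine Set.Finite.of_finite_image (f := fun m => (f n m).1) (h2.subset ?_) ?_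
        · rintro _ ⟨m, hm, rfl⟩
          exact ⟨(f n m).2, hm⟩
        · intro a _ b _ h
          exact (f n).injective (Subtype.ext h)
      rw [← Nat.cofinite_eq_atTop]
      exact h3)
    refine ⟨fun n => (f n (e n)).1, fun n => (f n (e n)).2, ⟨⟨?_, ?_, ?_⟩, ?_⟩⟩
    · rintro _ ⟨n, rfl⟩
      exact (h𝒰 n).1.1 _ (f n (e n)).2
    · rintro ⟨n, hn⟩
      have h1 : (f n (e n)).1 ∈ 𝒰 n := (f n (e n)).2
      have h2 : (f n (e n)).1 = Set.univ := hn
      rw [h2] at h1
      exact (h𝒰 n).1.2.1 h1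
    · intro F
      obtain ⟨n, hn⟩ := (he F).exists
      exact ⟨_, ⟨n, rfl⟩, hn⟩
    · rintro _ ⟨n, rfl⟩
      exact (h𝒰 n).2 _ (f n (e n)).2
  · -- failure of `S₁(Γ, Ω)`
    intro hS
    let U : ℕ → ℕ → Set X := fun n m => {x | ∃ k, g x (n, m, k) = true}
    have hUo : ∀ n m, IsOpen (U n m) := by
      intro n m
      have : U n m = g ⁻¹' (⋃ k, {z : Z | z (n, m, k) = true}) := by
        ext x
        simp [U]
      rw [this]
      refine (isOpen_iUnion fun k => ?_).preimage hgc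
      have : {z : Z | z (n, m, k) = true} = (fun z : Z => z (n, m, k)) ⁻¹' {true} := by
        ext z; simp
      rw [this]
      exact (isOpen_discrete _).preimage (continuous_apply _)
    have hpt : ∀ n m, ∃ x : X, x ∉ U n m ∧ ∀ m', m' ≠ m → x ∈ U n m' := by
      intro n m
      let B := max n m + 1
      have hC : ({(n, m)} : Set (ℕ × ℕ)) ⊆ Pool.Agent.V11258.SG.box2 B := by
        rintro _ rfl
        exact ⟨Nat.lt_succ_of_le (le_max_left _ _), Nat.lt_succ_of_le (le_max_right _ _)⟩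
      have hs : (fun _ => false : Z) ∈ Pool.Agent.V11258.SG.ZC {(n, m)} := fun _ _ _ => rfl
      have hq : Pool.Agent.V11258.SG.qpt B {(n, m)} (fun _ => false) ∈ X0 :=
        hQ ⟨B, {(n, m)}, _, hC, hs, rfl⟩
      obtain ⟨x, hx⟩ := hgs _ hq
      refine ⟨x, ?_, fun m' hm' => ?_⟩
      · rintro ⟨k, hk⟩
        rw [hx, Pool.Agent.V11258.SG.qpt_ZC B {(n, m)} {(n, m)} _ hs subset_union_left (n, m)
          (mem_singleton _) k] at hk
        exact absurd hk (by simp)
      · refine ⟨B, ?_⟩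
        rw [hx]
        refine Pool.Agent.V11258.SG.qpt_true B _ _ n m' B ?_ le_rfl
        intro h
        rw [mem_singleton_iff] at h
        exact hm' (congrArg Prod.snd h)
    obtain ⟨a, ha1, ha2⟩ := hS (fun n => range (U n)) (by
      intro n
      refine ⟨?_, ?_, ?_, ?_⟩
      · rintro _ ⟨m, rfl⟩
        exact hUo n m
      · rintro ⟨m, hm⟩
        obtain ⟨x, hx, _⟩ := hpt n m
        rw [hm] at hx
        exact hx (mem_univ x)
      · refine infinite_range_of_injective ?_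
        intro m m' h
        by_contra hne
        obtain ⟨x, hx, hx'⟩ := hpt n m
        rw [h] at hx
        exact hx (hx' m' (Ne.symm hne))
      · intro x
        obtain ⟨M, hM⟩ := hrow (g x) (hg1 x) n
        refine ((finite_Iio M).image (U n)).subset ?_
        rintro _ ⟨⟨m, rfl⟩, hm⟩
        refine ⟨m, ?_, rfl⟩
        by_contra hlt
        exact hm (hM m (not_lt.mp hlt)))
    choose f hf using ha1
    obtain ⟨z, hz, z', hz', h⟩ := hfun f
    obtain ⟨x, hx⟩ := hgs z hz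
    obtain ⟨x', hx'⟩ := hgs z' hz'
    obtain ⟨_, ⟨n, rfl⟩, hn⟩ := ha2.2.2 {x, x'}
    rw [← hf n] at hn
    have h1 : x ∈ U n (f n) := hn (by simp)
    have h2 : x' ∈ U n (f n) := hn (by simp)
    rcases h n with h3 | h3
    · obtain ⟨k, hk⟩ := h1
      rw [hx, h3 k] at hk
      exact absurd hk (by simp)
    · obtain ⟨k, hk⟩ := h2
      rw [hx', h3 k] at hk
      exact absurd hk (by simp)

end Pool.Agent.Results.MP_70f607_gt.ClopenNotOpen
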